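import Pool.Agent.Lib.MP_0d9445_pr.Hom.Tartar
import Pool.Agent.Lib.MP_0d9445_pr.Cell.Win

open Finset Filter Topology MeasureTheory
open scoped Classical

noncomputable section

namespace Pool.Agent.Lib.MP_0d9445_pr.Hom

open Net Cell

/-- a window of cells which contain their centres and have diameter at most `d x ≤ ε` -/
structure Win (G : Net ℂ) (H : ℂ → Set ℂ) (s : Finset ℂ) (K : Set ℂ) (d : ℂ → ℝ) (ε : ℝ) :
    Prop where
  cw : CW G H s K
  ctr : ∀ x ∈ s, x ∈ H x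
  diam : ∀ x ∈ s, ∀ v ∈ H x, ∀ w ∈ H x, dist v w ≤ d x
  small : ∀ x ∈ s, d x ≤ ε

theorem co_lip (p : Fin 2) (x y : ℂ) : |co p x - co p y| ≤ dist x y := by
  rw [Complex.dist_eq]
  fin_cases p
  · simpa [co] using Complex.abs_re_le_norm (x - y)
  · simpa [co] using Complex.abs_im_le_norm (x - y)

variable {G : Net ℂ} {H : ℂ → Set ℂ} {s : Finset ℂ} {K : Set ℂ} {d : ℂ → ℝ} {ε : ℝ}

namespace Win

variable (h : Win G H s K d ε)
include h

theorem mono {K' : Set ℂ} (hK : K' ⊆ K) {ε' : ℝ} (hε : ε ≤ ε') : Win G H s K' d ε' :=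
  ⟨h.cw.mono hK, h.ctr, h.diam, fun x hx => (h.small x hx).trans hε⟩

theorem d_nonneg {x : ℂ} (hx : x ∈ s) : 0 ≤ d x := by
  simpa using h.diam x hx x (h.ctr x hx) x (h.ctr x hx)

theorem dist_le {x w : ℂ} (hx : x ∈ s) (hw : w ∈ H x) : dist w x ≤ ε :=
  (h.diam x hx w hw x (h.ctr x hx)).trans (h.small x hx)

theorem pts_subset_mt (A : Set ℂ) : pts s A ⊆ mt H s A := fun x hx =>
  mem_mt.2 ⟨(mem_pts.1 hx).1, x, h.ctr x (mem_pts.1 hx).1, (mem_pts.1 hx).2⟩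

theorem mt_subset_pts (c : ℂ) (R : ℝ) : mt H s (sqC c R) ⊆ pts s (sqC c (R + ε)) := by
  intro x hx
  obtain ⟨h1, w, hw, hwR⟩ := mem_mt.1 hx
  refine mem_pts.2 ⟨h1, ?_⟩
  have h2 := sn_sub_le c x w
  have h3 := h.dist_le h1 hw
  rw [dist_comm] at h3
  have h4 : sn c w ≤ R := hwR
  show sn c x ≤ R + ε
  linarith

theorem cell_subset {c x : ℂ} {R : ℝ} (hx : x ∈ pts s (sqC c R)) : H x ⊆ sqC c (R + ε) := by
  intro w hw
  have h2 := sn_sub_le c w x
  have h3 := h.dist_le (mem_pts.1 hx).1 hw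
  have h4 : sn c x ≤ R := (mem_pts.1 hx).2
  show sn c w ≤ R + ε
  linarith

/-- neighbours are vertices of the window and edges are short -/
theorem nbr {c : ℂ} {R : ℝ} (hK : sqC c (R + ε) ⊆ K) {x y : ℂ} (hx : x ∈ pts s (sqC c R))
    (hy : y ∈ G.N x) : y ∈ s ∧ ‖x - y‖ ≤ d x + d y := by
  obtain ⟨h1, w, hw⟩ := h.cw.nbr x (mem_pts.1 hx).1 ((h.cell_subset hx).trans hK) y hy
  refine ⟨h1, ?_⟩
  rw [← dist_eq_norm]
  exact (dist_triangle x w y).trans (add_le_add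
    (h.diam x (mem_pts.1 hx).1 x (h.ctr x (mem_pts.1 hx).1) w hw.1)
    (h.diam y h1 w hw.2 y (h.ctr y h1)))

/-- the cell of a point far out has its centre outside the square -/
theorem exists_out {c w : ℂ} {R : ℝ} (hw : w ∈ K) (hR : R + ε < sn c w) :
    ∃ y ∈ s, w ∈ H y ∧ y ∉ sqC c R := by
  obtain ⟨y, hy, hwy⟩ := h.cw.exists_mem hw
  refine ⟨y, hy, hwy, fun hh => ?_⟩
  have h1 := h.cell_subset (mem_pts.2 ⟨hy, hh⟩) hwy
  exact absurd h1 (not_le.2 hR)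

theorem esc {c : ℂ} {R R' : ℝ} (hK : sqC c R' ⊆ K) (hR : R + ε < R') {A : Set ℂ}
    (hA : A ⊆ sqC c R) : G.Esc (pts s A) := by
  intro x hx
  have hx' : sn c x ≤ R := hA (mem_pts.1 hx).2
  have hε : 0 ≤ ε := (h.d_nonneg (mem_pts.1 hx).1).trans (h.small x (mem_pts.1 hx).1)
  obtain ⟨w, hw⟩ := frame_nonempty c (r := R') (by linarith [sn_nonneg c x])
  obtain ⟨y, hy, hwy, hyR⟩ := h.exists_out (c := c) (R := R) (hK (frame_subset c R' hw))
    (by rw [show sn c w = R' from hw]; exact hR)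
  refine ⟨y, fun hh => hyR (hA (mem_pts.1 hh).2), h.cw.reach (convex_sqC c R').isPreconnected hK
    (h.pts_subset_mt _ (pts_mono s (hA.trans (sqC_mono c (by linarith))) hx))
    (mem_mt.2 ⟨hy, w, hwy, frame_subset c R' hw⟩)⟩

end Win

/-- on a small set the minimiser is close to its Lipschitz data -/
theorem abs_hx_sub_le {T : Finset ℂ} (hT : G.Esc T) {φ : ℂ → ℝ} {δ : ℝ} (hδ : 0 ≤ δ)
    (hφ : ∀ x ∈ T, ∀ y ∈ T, |φ x - φ y| ≤ δ) (x : ℂ) : |G.hx T φ x - φ x| ≤ δ := by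
  by_cases hx : x ∈ G.inner T
  · have hE := hT.mono (G.inner_subset T)
    have hxT := G.inner_subset T hx
    have h1 := G.harm_le hE (u := G.hx T φ) (fun z hz => (G.hx_lap T φ hz).le) (M := φ x + δ)
      (fun z hz y hy hn => by
        rw [G.hx_out T φ hn]
        linarith [(abs_le.1 (hφ y ((G.mem_inner.1 hz).2 hy) x hxT)).2]) x hx
    have h2 := G.le_harm hE (u := G.hx T φ) (fun z hz => (G.hx_lap T φ hz).ge) (m := φ x - δ)
      (fun z hz y hy hn => by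
        rw [G.hx_out T φ hn]
        linarith [(abs_le.1 (hφ y ((G.mem_inner.1 hz).2 hy) x hxT)).1]) x hx
    rw [abs_le]; constructor <;> linarith
  · rw [G.hx_out T φ hx, sub_self, abs_zero]
    exact hδ

theorem abs_patch_sub_le {ι : Type*} {I : Finset ι} {T : ι → Finset ℂ}
    (hd : (I : Set ι).PairwiseDisjoint T) (hT : ∀ i ∈ I, G.Esc (T i)) {φ : ℂ → ℝ} {δ : ℝ}
    (hδ : 0 ≤ δ) (hφ : ∀ i ∈ I, ∀ x ∈ T i, ∀ y ∈ T i, |φ x - φ y| ≤ δ) (x : ℂ) :
    |G.patch I T φ x - φ x| ≤ δ := by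
  by_cases hx : ∃ i ∈ I, x ∈ G.inner (T i)
  · obtain ⟨i, hi, hx⟩ := hx
    rw [G.patch_eq hd φ hi (G.mem_clo.2 (Or.inl (G.inner_subset _ hx)))]
    exact abs_hx_sub_le (hT i hi) hδ (hφ i hi) x
  · rw [G.patch_out φ fun i hi hh => hx ⟨i, hi, hh⟩, sub_self, abs_zero]
    exact hδ

/-- a function of small energy which vanishes outside a square is small on some frame -/
theorem Win.exists_frame_small (h : Win G H s K d ε) {c : ℂ} {R ρ r Y E : ℝ} (hr : 0 < r)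
    (hrρ : r ≤ ρ) (hε : ε < ρ) (hK : sqC c (R + ρ) ⊆ K)
    (hY : ∑ x ∈ pts s (sqC c (R + ρ + ε)), d x ^ 2 ≤ Y) {v : ℂ → ℝ}
    (hv : ∀ y, y ∉ sqC c R → v y = 0) (hE : G.en (mt H s (sqC c (R + ρ))) v v ≤ E) {x : ℂ}
    (hx : x ∈ sqC c R) :
    ∃ t ∈ Set.Ioo 0 r, ∀ y ∈ mt H s (frame x t), |v y| ≤ 2 * (√(2 * E) * √Y) / r := by
  obtain ⟨hx1, hx2⟩ := sn_le_iff.1 hx
  rw [abs_le] at hx1 hx2
  set L : ℝ → Set ℂ := fun t => hash x t (c.re - (R + ρ)) (c.re + (R + ρ)) (c.im - (R + ρ))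
    (c.im + (R + ρ)) with hL
  have hLs : ∀ t, L t ⊆ sqC c (R + ρ) := fun t w hw =>
    sn_le_iff.2 ⟨abs_le.2 ⟨by linarith [hw.1.1], by linarith [hw.1.2]⟩,
      abs_le.2 ⟨by linarith [hw.2.1.1], by linarith [hw.2.1.2]⟩⟩
  obtain ⟨t, ht, hosc⟩ := h.cw.exists_osc (f := lev x) (lev_sub_le x) (L := L)
    (fun t w hw => exists_lev hw) hr
    (fun t ht => isPreconnected_hash ht.1.le (by linarith [ht.2]) (by linarith [ht.2])
      (by linarith [ht.2]) (by linarith [ht.2]))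
    (fun t _ => (hLs t).trans hK) (t := mt H s (sqC c (R + ρ))) (fun t _ => mt_mono (hLs t))
    (fun y hy => h.d_nonneg (mt_subset _ hy)) (fun y hy => h.diam y (mt_subset _ hy)) v
  refine ⟨t, ht, fun y hy => ?_⟩
  have hy' : y ∈ mt H s (L t) := mt_mono (frame_subset_hash (by linarith [ht.2])
    (by linarith [ht.2]) (by linarith [ht.2]) (by linarith [ht.2])) hy
  have hw : (⟨c.re + (R + ρ), x.im + t⟩ : ℂ) ∈ L t :=
    ⟨⟨by simp only; linarith, le_rfl⟩, ⟨by simp only; linarith [ht.1], by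
      simp only; linarith [ht.2]⟩, Or.inr (by simp [abs_of_pos ht.1])⟩
  obtain ⟨y₀, hy₀, hwy, hout⟩ := h.exists_out (c := c) (R := R) (hK (hLs t hw))
    (lt_of_lt_of_le (by simp only [add_sub_cancel_left]; linarith [le_abs_self (R + ρ)])
      (le_max_left _ _))
  have hy₀' : y₀ ∈ mt H s (L t) := mem_mt.2 ⟨hy₀, _, hwy, hw⟩
  have hS : ∑ x ∈ mt H s (sqC c (R + ρ)), min (d x) (r - 0) ^ 2 ≤ Y := by
    refine le_trans ?_ hY
    refine (sum_le_sum fun z hz => ?_).trans (sum_le_sum_of_subset_of_nonneg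
      (h.mt_subset_pts c _) fun z _ _ => sq_nonneg (d z))
    exact pow_le_pow_left₀ (le_min (h.d_nonneg (mt_subset _ hz)) (by linarith)) (min_le_left _ _) 2
  have hb : (Fintype.card Bool : ℝ) * (√(2 * G.en (mt H s (sqC c (R + ρ))) v v) *
      √(∑ x ∈ mt H s (sqC c (R + ρ)), min (d x) (r - 0) ^ 2)) / (r - 0) ≤
      2 * (√(2 * E) * √Y) / r := by
    rw [Fintype.card_bool, Nat.cast_ofNat]
    have := sqrt_mul_le (mul_le_mul_of_nonneg_left hE zero_le_two) hS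
    rw [sub_zero r] at this ⊢
    gcongr
  have k1 := (hosc y hy' y₀ hy₀').trans hb
  have k2 := (hosc y₀ hy₀' y hy').trans hb
  rw [hv y₀ hout] at k1 k2
  rw [abs_le]; constructor <;> linarith

/-- the minimiser is close to its data if a function close to the data is close in energy -/
theorem Win.corr_bound (h : Win G H s K d ε) {c : ℂ} {R ρ r Y E δ : ℝ} (hr : 0 < r)
    (hrρ : r ≤ ρ) (hε : ε < ρ) (hK : sqC c (R + ρ) ⊆ K)
    (hY : ∑ x ∈ pts s (sqC c (R + ρ + ε)), d x ^ 2 ≤ Y) {S : Set ℂ} (hS : S ⊆ sqC c R)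
    {φ w : ℂ → ℝ} (hφ : ∀ x y, |φ x - φ y| ≤ dist x y) (hw : ∀ x, |w x - φ x| ≤ δ)
    (hw0 : ∀ x, x ∉ G.inner (pts s S) → w x = φ x)
    (hE : G.en (pts s S) (w - G.hx (pts s S) φ) (w - G.hx (pts s S) φ) ≤ E) {x : ℂ}
    (hx : x ∈ G.inner (pts s S)) :
    |G.hx (pts s S) φ x - φ x| ≤ 2 * r + ε + δ + 2 * (√(2 * E) * √Y) / r := by
  have hxp := G.inner_subset _ hx
  have hxs := (mem_pts.1 hxp).1
  have hxR := hS (mem_pts.1 hxp).2
  have hv0 : ∀ y, y ∉ G.inner (pts s S) → (w - G.hx (pts s S) φ) y = 0 := fun y hy => by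
    rw [Pi.sub_apply, hw0 y hy, G.hx_out _ φ hy, sub_self]
  have hE' : G.en (mt H s (sqC c (R + ρ))) (w - G.hx (pts s S) φ) (w - G.hx (pts s S) φ) ≤ E := by
    refine (G.en_mono (subset_union_left (s₂ := pts s S)) _).trans ?_
    rwa [G.en_indep (G.inner_mono subset_union_right) subset_rfl _ hv0]
  obtain ⟨t, ht, hsm⟩ := h.exists_frame_small hr hrρ hε hK hY
    (fun y hy => hv0 y fun hh => hy (hS (mem_pts.1 (G.inner_subset _ hh)).2)) hE' hxR
  have hε0 : 0 ≤ ε := (h.d_nonneg hxs).trans (h.small x hxs)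
  have hδ0 : 0 ≤ δ := (abs_nonneg _).trans (hw x)
  have hη0 : 0 ≤ 2 * (√(2 * E) * √Y) / r := by positivity
  have hKt : sqC x t ⊆ K := fun z hz => hK (by
    have h1 := sn_triangle c x z
    have h2 : sn c x ≤ R := hxR
    have h3 : sn x z ≤ t := hz
    show sn c z ≤ R + ρ
    linarith [ht.2])
  have f1 : ∀ y ∈ mt H s (frame x t),
      |G.hx (pts s S) φ y - φ x| ≤ 2 * r + ε + δ + 2 * (√(2 * E) * √Y) / r := by
    intro y hy
    obtain ⟨hys, z, hz, hzf⟩ := mem_mt.1 hy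
    have k1 := hsm y hy
    have k2 := hw y
    have k3 := hφ y x
    have k4 := dist_triangle y z x
    have k5 := h.dist_le hys hz
    have k6 := dist_le_sn x z
    rw [show sn x z = t from hzf] at k6
    rw [dist_comm] at k5
    rw [Pi.sub_apply] at k1
    rw [abs_le] at k1 k2 k3 ⊢
    constructor <;> linarith [ht.2]
  have f2 : ∀ y ∈ ins H s (sqO x t), y ∉ G.inner (pts s S) →
      |G.hx (pts s S) φ y - φ x| ≤ 2 * r + ε + δ + 2 * (√(2 * E) * √Y) / r := by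
    intro y hy hn
    rw [G.hx_out _ φ hn]
    have k1 : sn x y < t := (mem_ins.1 hy).2 (h.ctr y (mem_ins.1 hy).1)
    linarith [hφ y x, dist_le_sn x y, ht.2]
  have hxm : x ∈ mt H s (sqC x t) := mem_mt.2 ⟨hxs, x, h.ctr x hxs, by
    show sn x x ≤ t
    rw [sn_self]; exact ht.1.le⟩
  have g1 := h.cw.le_of_frame ht.1.le hKt (G.inner (pts s S)) (u := G.hx (pts s S) φ) (p := 0)
    (M := φ x + (2 * r + ε + δ + 2 * (√(2 * E) * √Y) / r))
    (fun y hy _ => by rw [G.hx_lap _ φ hy, lap_zero]) (fun _ _ => le_rfl)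
    (fun y hy => by linarith [(abs_le.1 (f1 y hy)).2])
    (fun y hy hn => by linarith [(abs_le.1 (f2 y hy hn)).2]) x hxm
  have g2 := h.cw.le_of_frame ht.1.le hKt (G.inner (pts s S)) (u := -G.hx (pts s S) φ) (p := 0)
    (M := -φ x + (2 * r + ε + δ + 2 * (√(2 * E) * √Y) / r))
    (fun y hy _ => by rw [lap_neg, G.hx_lap _ φ hy, lap_zero, neg_zero]) (fun _ _ => le_rfl)
    (fun y hy => by rw [Pi.neg_apply]; linarith [(abs_le.1 (f1 y hy)).1])
    (fun y hy hn => by rw [Pi.neg_apply]; linarith [(abs_le.1 (f2 y hy hn)).1]) x hxm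
  simp only [Pi.zero_apply, Pi.neg_apply, add_zero] at g1 g2
  rw [abs_le]; constructor <;> linarith

/-- the hypotheses of the local theorem follow from the cell energies -/
theorem homog_of {ι : Type*} {S : Set ℂ} {I : ℕ → Finset ι} {Q : ℕ → ι → Set ℂ} (hP : Part S I Q)
    {G : ℕ → Net ℂ} {H : ℕ → ℂ → Set ℂ} {s : ℕ → Finset ℂ} {d : ℕ → ℂ → ℝ} {a : ℕ → ℝ}
    {c : ℂ} {R ρ C : ℝ} (hρ : 0 < ρ) (hS : S ⊆ sqC c R)
    (hW : ∀ ε > 0, ∀ᶠ n in atTop, Win (G n) (H n) (s n) (sqC c (R + ρ)) (d n) ε)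
    (hX : ∀ᶠ n in atTop, (G n).len2 (pts (s n) S) ≤ C)
    (hY : ∀ᶠ n in atTop, ∑ x ∈ pts (s n) (sqC c (R + ρ)), d n x ^ 2 ≤ C)
    (ha : ∀ᶠ n in atTop, |a n| ≤ C)
    (hL : Lim G s a S) (hQ : ∀ k, ∀ i ∈ I k, Lim G s a (Q k i)) : Homog G s a S C := by
  refine ⟨hX, fun ε hε => ?_, ?_, fun p δ hδ => ?_,
    fun p q f hf g hg => weighted_flux hP hL hQ hX ha p q hf hg⟩
  · filter_upwards [hW (min (ε / 2) ρ) (by positivity)] with n hn x hx y hy
    obtain ⟨h1, h2⟩ := hn.nbr (c := c) (R := R) (sqC_mono c (by linarith [min_le_right (ε / 2) ρ]))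
      (pts_mono _ hS hx) hy
    linarith [hn.small x (mem_pts.1 hx).1, hn.small y h1, min_le_left (ε / 2) ρ]
  · filter_upwards [hW ρ hρ] with n hn x hx y hy
    exact (hn.nbr (c := c) (R := R) subset_rfl (pts_mono _ hS hx) hy).1
  · obtain ⟨k, hk⟩ := hP.fine (δ / 4) (by positivity)
    obtain ⟨r, hr, hrρ, hrδ⟩ : ∃ r > 0, r ≤ ρ / 2 ∧ r ≤ δ / 8 :=
      ⟨min (ρ / 2) (δ / 8), by positivity, min_le_left _ _, min_le_right _ _⟩
    have hlim := ((((defect hP hL hQ p k).const_mul 2).sqrt.mul_const √C).const_mul 2).div_const r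
    simp only [mul_zero, Real.sqrt_zero, zero_mul, zero_div] at hlim
    filter_upwards [hW (min (δ / 4) (ρ / 4)) (by positivity), hY,
      hlim.eventually (gt_mem_nhds (show 0 < δ / 4 by positivity))] with n hn hYn hEn x _
    have e1 := min_le_left (δ / 4) (ρ / 4)
    have e2 := min_le_right (δ / 4) (ρ / 4)
    by_cases hx : x ∈ (G n).inner (pts (s n) S)
    · have := hn.corr_bound (c := c) (R := R) (ρ := ρ / 2) (Y := C) hr hrρ (by linarith)
        (sqC_mono c (by linarith)) ((sum_le_sum_of_subset_of_nonneg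
          (pts_mono _ (sqC_mono c (by linarith))) fun z _ _ => sq_nonneg _).trans hYn) hS
        (co_lip p) (abs_patch_sub_le (hP.pts_disj (s n) k)
          (fun i hi => hn.esc (c := c) (R := R) subset_rfl (by linarith) ((hP.sub hi).trans hS))
          (δ := δ / 4) (by positivity) fun i hi y hy z hz =>
            (co_lip p y z).trans (hk i hi y (mem_pts.1 hy).2 z (mem_pts.1 hz).2))
        (fun y hy => (G n).patch_out _ fun i hi hh =>
          hy ((G n).inner_mono (pts_mono _ (hP.sub hi)) hh)) le_rfl hx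
      linarith
    · rw [(G n).hx_out _ _ hx, sub_self, abs_zero]
      exact hδ.le

end Pool.Agent.Lib.MP_0d9445_pr.Hom
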