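import Pool.Agent.Lib.MP_0d9445_pr.Net.Weight

open Finset Filter Topology MeasureTheory
open scoped Classical

noncomputable section

namespace Pool.Agent.Lib.MP_0d9445_pr.Hom

open Net

/-- the two coordinates -/
def co : Fin 2 → ℂ → ℝ := ![Complex.re, Complex.im]

/-- the two directions -/
def dir : Fin 2 → ℂ := ![1, Complex.I]

/-- the vertices in a set -/
def pts (s : Finset ℂ) (A : Set ℂ) : Finset ℂ := s.filter fun x => x ∈ A

/-- finite partitions of `S` of arbitrarily small mesh -/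
structure Part {ι : Type*} (S : Set ℂ) (I : ℕ → Finset ι) (Q : ℕ → ι → Set ℂ) : Prop where
  disj : ∀ k, (I k : Set ι).PairwiseDisjoint (Q k)
  cover : ∀ k, ⋃ i ∈ I k, Q k i = S
  meas : ∀ k, ∀ i ∈ I k, MeasurableSet (Q k i)
  fine : ∀ δ > 0, ∃ k, ∀ i ∈ I k, ∀ x ∈ Q k i, ∀ y ∈ Q k i, dist x y ≤ δ
  bdd : Bornology.IsBounded S

/-- the cell energies of `A` are asymptotically `a n` times the area -/
def Lim (G : ℕ → Net ℂ) (s : ℕ → Finset ℂ) (a : ℕ → ℝ) (A : Set ℂ) : Prop :=
  ∀ p q : Fin 2, Tendsto (fun n => (G n).en (pts (s n) A) ((G n).hx (pts (s n) A) (co p))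
    ((G n).hx (pts (s n) A) (co q)) - a n * if p = q then volume.real A else 0) atTop (𝓝 0)

theorem mem_pts {s : Finset ℂ} {A : Set ℂ} {x : ℂ} : x ∈ pts s A ↔ x ∈ s ∧ x ∈ A := mem_filter

theorem pts_mono (s : Finset ℂ) {A B : Set ℂ} (h : A ⊆ B) : pts s A ⊆ pts s B :=
  fun _ hx => mem_pts.2 ⟨(mem_pts.1 hx).1, h (mem_pts.1 hx).2⟩

theorem en_co_le (G : Net ℂ) (S : Finset ℂ) (p : Fin 2) : G.en S (co p) (co p) ≤ G.len2 S := by
  have h1 := G.en_nonneg S Complex.re
  have h2 := G.en_nonneg S Complex.im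
  fin_cases p
  · exact le_add_of_nonneg_right h2
  · exact le_add_of_nonneg_left h1

/-- polarisation -/
theorem lim_of_nu {G : ℕ → Net ℂ} {s : ℕ → Finset ℂ} {a : ℕ → ℝ} {A : Set ℂ}
    (h1 : Tendsto (fun n => (G n).nu (pts (s n) A) Complex.re - a n * volume.real A) atTop (𝓝 0))
    (h2 : Tendsto (fun n => (G n).nu (pts (s n) A) Complex.im - a n * volume.real A) atTop (𝓝 0))
    (h3 : Tendsto (fun n => (G n).nu (pts (s n) A) (Complex.re + Complex.im) -
      2 * (a n * volume.real A)) atTop (𝓝 0)) : Lim G s a A := by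
  have h4 : Tendsto (fun n => (G n).en (pts (s n) A) ((G n).hx (pts (s n) A) Complex.re)
      ((G n).hx (pts (s n) A) Complex.im)) atTop (𝓝 0) := by
    have := ((h3.sub h1).sub h2).const_mul (1 / 2)
    simp only [sub_zero, mul_zero] at this
    refine this.congr fun n => ?_
    rw [nu_add]; ring
  intro p q
  fin_cases p <;> fin_cases q
  · exact h1
  · simpa [co] using h4
  · simpa [co, en_comm _ _ (hx _ _ Complex.im)] using h4
  · exact h2

variable {ι : Type*} {S : Set ℂ} {I : ℕ → Finset ι} {Q : ℕ → ι → Set ℂ}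

theorem Part.sub (h : Part S I Q) {k : ℕ} {i : ι} (hi : i ∈ I k) : Q k i ⊆ S := by
  rw [← h.cover k]
  exact Set.subset_biUnion_of_mem (u := Q k) (mem_coe.2 hi)

theorem Part.pts_eq (h : Part S I Q) (s : Finset ℂ) (k : ℕ) :
    pts s S = (I k).biUnion fun i => pts s (Q k i) := by
  ext x
  simp only [mem_pts, mem_biUnion, ← h.cover k, Set.mem_iUnion]
  exact ⟨fun ⟨h1, i, hi, h2⟩ => ⟨i, hi, h1, h2⟩, fun ⟨i, hi, h1, h2⟩ => ⟨h1, i, hi, h2⟩⟩

theorem Part.pts_disj (h : Part S I Q) (s : Finset ℂ) (k : ℕ) :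
    (I k : Set ι).PairwiseDisjoint fun i => pts s (Q k i) := fun _ hi _ hj hij =>
  disjoint_left.2 fun _ hx hx' =>
    Set.disjoint_left.1 (h.disj k hi hj hij) (mem_pts.1 hx).2 (mem_pts.1 hx').2

theorem Part.vol_lt (h : Part S I Q) : volume S < ⊤ := h.bdd.measure_lt_top

theorem Part.integral_eq (h : Part S I Q) (k : ℕ) {f : ℂ → ℝ} (hf : IntegrableOn f S) :
    ∫ z in S, f z = ∑ i ∈ I k, ∫ z in Q k i, f z := by
  rw [← integral_biUnion_finset (I k) (h.meas k) (h.disj k) fun i hi => hf.mono_set (h.sub hi),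
    h.cover k]

theorem Part.vol_eq (h : Part S I Q) (k : ℕ) :
    volume.real S = ∑ i ∈ I k, volume.real (Q k i) := by
  simpa using h.integral_eq k (f := fun _ => 1) (integrableOn_const h.vol_lt.ne)

/-- Riemann sums -/
theorem Part.riemann (h : Part S I Q) (k : ℕ) {f : ℂ → ℝ} (hf : IntegrableOn f S) (c : ι → ℝ)
    {θ : ℝ} (hc : ∀ i ∈ I k, ∀ x ∈ Q k i, |f x - c i| ≤ θ) :
    |∑ i ∈ I k, c i * volume.real (Q k i) - ∫ z in S, f z| ≤ θ * volume.real S := by
  rw [h.integral_eq k hf, h.vol_eq k, ← sum_sub_distrib, mul_sum]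
  refine (abs_sum_le_sum_abs _ _).trans (sum_le_sum fun i hi => ?_)
  have hv : volume (Q k i) < ⊤ := (measure_mono (h.sub hi)).trans_lt h.vol_lt
  have h1 : c i * volume.real (Q k i) - ∫ z in Q k i, f z = ∫ z in Q k i, (c i - f z) := by
    have hci : IntegrableOn (fun _ : ℂ => c i) (Q k i) := integrableOn_const hv.ne
    rw [integral_sub hci (hf.mono_set (h.sub hi))]
    simp [mul_comm]
  rw [h1, ← Real.norm_eq_abs]
  exact norm_setIntegral_le_of_norm_le_const hv fun x hx => by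
    rw [Real.norm_eq_abs, abs_sub_comm]; exact hc i hi x hx

variable {G : ℕ → Net ℂ} {s : ℕ → Finset ℂ} {a : ℕ → ℝ}

/-- the glued minimisers of the pieces are close in energy to the minimiser of the big set -/
theorem defect (h : Part S I Q) (hS : Lim G s a S) (hQ : ∀ k, ∀ i ∈ I k, Lim G s a (Q k i))
    (p : Fin 2) (k : ℕ) :
    Tendsto (fun n => (G n).en (pts (s n) S)
      ((G n).patch (I k) (fun j => pts (s n) (Q k j)) (co p) - (G n).hx (pts (s n) S) (co p))
      ((G n).patch (I k) (fun j => pts (s n) (Q k j)) (co p) - (G n).hx (pts (s n) S) (co p)))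
      atTop (𝓝 0) := by
  have := (tendsto_finsetSum (I k) fun j hj => hQ k j hj p p).sub (hS p p)
  simp only [sum_const_zero, sub_zero, if_true] at this
  refine this.congr fun n => ?_
  have e := (G n).sum_nu_eq (h.pts_disj (s n) k) (co p)
  rw [← h.pts_eq (s n) k] at e
  rw [sum_sub_distrib, ← mul_sum, ← h.vol_eq k]
  simp only [nu] at e
  rw [e]; ring

/-- the flux of the minimiser of the big set through a piece -/
theorem cell_flux (h : Part S I Q) (hS : Lim G s a S) (hQ : ∀ k, ∀ i ∈ I k, Lim G s a (Q k i))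
    {C : ℝ} (hX : ∀ᶠ n in atTop, (G n).len2 (pts (s n) S) ≤ C) (p q : Fin 2) {k : ℕ} {i : ι}
    (hi : i ∈ I k) :
    Tendsto (fun n => (G n).en (pts (s n) (Q k i)) ((G n).hx (pts (s n) S) (co p)) (co q) -
      a n * if p = q then volume.real (Q k i) else 0) atTop (𝓝 0) := by
  set d : ℕ → ℂ → ℝ := fun n => (G n).patch (I k) (fun j => pts (s n) (Q k j)) (co p) -
    (G n).hx (pts (s n) S) (co p) with hd
  have h1 : Tendsto (fun n => (G n).en (pts (s n) S) (d n) (d n)) atTop (𝓝 0) :=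
    defect h hS hQ p k
  have h2 : Tendsto (fun n => (G n).en (pts (s n) (Q k i)) (d n) (co q)) atTop (𝓝 0) := by
    have h3 := (h1.sqrt).mul_const √C
    rw [Real.sqrt_zero, zero_mul] at h3
    refine squeeze_zero_norm' ?_ h3
    filter_upwards [hX] with n hn
    refine ((G n).abs_en_le _ _ _).trans (mul_le_mul (Real.sqrt_le_sqrt
      ((G n).en_mono (pts_mono _ (h.sub hi)) _)) (Real.sqrt_le_sqrt ?_) (Real.sqrt_nonneg _)
      (Real.sqrt_nonneg _))
    exact (((G n).en_mono (pts_mono _ (h.sub hi)) _).trans (en_co_le _ _ q)).trans hn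
  have h4 := (hQ k i hi p q).sub h2
  rw [sub_zero] at h4
  refine h4.congr fun n => ?_
  rw [hd, en_sub_left, en_hx_hx, (G n).en_congr
    (fun x hx => (G n).patch_eq (h.pts_disj (s n) k) (co p) hi hx) fun _ _ => rfl]
  ring

/-- the weighted flux of the minimiser -/
theorem weighted_flux (h : Part S I Q) (hS : Lim G s a S)
    (hQ : ∀ k, ∀ i ∈ I k, Lim G s a (Q k i)) {C : ℝ}
    (hX : ∀ᶠ n in atTop, (G n).len2 (pts (s n) S) ≤ C) (ha : ∀ᶠ n in atTop, |a n| ≤ C)
    (p q : Fin 2) {f : ℂ → ℝ} (hf : Continuous f) {g : ℕ → ℂ → ℝ}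
    (hg : ∀ ε > 0, ∀ᶠ n in atTop, ∀ x ∈ pts (s n) S, |g n x - f x| ≤ ε) :
    Tendsto (fun n => (G n).enw (pts (s n) S) (g n) ((G n).hx (pts (s n) S) (co p)) (co q) -
      a n * if p = q then ∫ z in S, f z else 0) atTop (𝓝 0) := by
  have hK := h.bdd.isCompact_closure
  have hint : IntegrableOn f S := (hf.continuousOn.integrableOn_compact hK).mono_set subset_closure
  have hC : 0 ≤ C := by
    obtain ⟨n, hn⟩ := ha.exists
    exact (abs_nonneg _).trans hn
  have hV : 0 ≤ volume.real S := measureReal_nonneg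
  refine Metric.tendsto_nhds.2 fun ε hε => ?_
  obtain ⟨θ, hθ, hθε⟩ : ∃ θ > 0, θ * (2 * C + C * volume.real S + 1) < ε := by
    refine ⟨ε / (2 * C + C * volume.real S + 1) / 2, by positivity, ?_⟩
    have : ε / (2 * C + C * volume.real S + 1) / 2 * (2 * C + C * volume.real S + 1) = ε / 2 := by
      field_simp
    linarith
  obtain ⟨δ, hδ, hu⟩ := Metric.uniformContinuousOn_iff_le.1
    (hK.uniformContinuousOn_of_continuous hf.continuousOn) θ hθ
  obtain ⟨k, hk⟩ := h.fine δ hδ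
  obtain ⟨c, hc⟩ : ∃ c : ι → ℝ, ∀ i ∈ I k, ∀ x ∈ Q k i, |f x - c i| ≤ θ := by
    refine ⟨fun i => if hi : (Q k i).Nonempty then f hi.some else 0, fun i hi x hx => ?_⟩
    have hne : (Q k i).Nonempty := ⟨x, hx⟩
    simp only [dif_pos hne]
    exact hu x (subset_closure (h.sub hi hx)) _ (subset_closure (h.sub hi hne.some_mem))
      (hk i hi x hx _ hne.some_mem)
  have h1 := tendsto_finsetSum (I k) fun i hi => (cell_flux h hS hQ hX p q hi).const_mul (c i)
  simp only [mul_zero, sum_const_zero] at h1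
  filter_upwards [hX, ha, hg θ hθ, Metric.tendsto_nhds.1 h1 θ hθ] with n hn han hgn h1n
  rw [Real.dist_eq, sub_zero] at h1n ⊢
  have e1 : √((G n).en (pts (s n) S) ((G n).hx (pts (s n) S) (co p))
      ((G n).hx (pts (s n) S) (co p))) * √((G n).en (pts (s n) S) (co q) (co q)) ≤ C := by
    rw [← Real.mul_self_sqrt hC]
    exact mul_le_mul (Real.sqrt_le_sqrt ((((G n).nu_le_en _ _).trans (en_co_le _ _ p)).trans hn))
      (Real.sqrt_le_sqrt ((en_co_le _ _ q).trans hn)) (Real.sqrt_nonneg _) (Real.sqrt_nonneg _)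
  have e2 := (G n).enw_pieces (I k) _ (h.pts_disj (s n) k) (g n) ((G n).hx (pts (s n) S) (co p))
    (co q) c (θ := 2 * θ) (by positivity) fun i hi x hx => by
      have k1 := hgn x (pts_mono _ (h.sub hi) hx)
      have k2 := hc i hi x (mem_pts.1 hx).2
      linarith [abs_sub_le (g n x) (f x) (c i)]
  rw [← h.pts_eq (s n) k] at e2
  have e3 := e2.trans (mul_le_mul_of_nonneg_left e1 (by positivity))
  have e4 : |a n * (∑ i ∈ I k, c i * (if p = q then volume.real (Q k i) else 0) -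
      if p = q then ∫ z in S, f z else 0)| ≤ C * (θ * volume.real S) := by
    rw [abs_mul]
    refine mul_le_mul han ?_ (abs_nonneg _) hC
    split_ifs
    · exact h.riemann k hint c hc
    · simpa using mul_nonneg hθ.le hV
  simp only [mul_sub, sum_sub_distrib] at h1n
  have e5 : ∑ i ∈ I k, c i * (a n * if p = q then volume.real (Q k i) else 0) =
      a n * ∑ i ∈ I k, c i * (if p = q then volume.real (Q k i) else 0) := by
    rw [mul_sum]
    exact sum_congr rfl fun i _ => by ring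
  rw [e5] at h1n
  rw [mul_sub] at e4
  rw [abs_lt] at h1n ⊢
  rw [abs_le] at e3 e4
  constructor <;> nlinarith [h1n.1, h1n.2, e3.1, e3.2, e4.1, e4.2]

end Pool.Agent.Lib.MP_0d9445_pr.Hom
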