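import Pool.Agent.Lib.MP_0d9445_pr.Hom.Flux

open Finset Filter Topology MeasureTheory
open scoped Classical

noncomputable section

namespace Pool.Agent.Lib.MP_0d9445_pr.Hom

open Net

/-- a directional derivative -/
def pd (p : Fin 2) (v : ℂ → ℝ) (z : ℂ) : ℝ := fderiv ℝ v z (dir p)

theorem pd_continuous (p : Fin 2) {v : ℂ → ℝ} (hv : ContDiff ℝ 1 v) : Continuous (pd p v) :=
  (hv.continuous_fderiv one_ne_zero).clm_apply continuous_const

theorem pd_contDiff (p : Fin 2) {v : ℂ → ℝ} (hv : ContDiff ℝ 2 v) : ContDiff ℝ 1 (pd p v) :=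
  (hv.fderiv_right (m := 1) (by norm_num)).clm_apply contDiff_const

theorem pd_tsupport (p : Fin 2) (v : ℂ → ℝ) : tsupport (pd p v) ⊆ tsupport v := by
  have h : Function.support (pd p v) ⊆ Function.support (fderiv ℝ v) := by
    intro z hz h
    exact hz (by simp [pd, h])
  exact (closure_mono h).trans (tsupport_fderiv_subset ℝ)

theorem pd_compact (p : Fin 2) {v : ℂ → ℝ} (hc : HasCompactSupport v) :
    HasCompactSupport (pd p v) :=
  hc.of_isClosed_subset (isClosed_tsupport _) (pd_tsupport p v)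

theorem fderiv_eq (v : ℂ → ℝ) (z w : ℂ) : fderiv ℝ v z w = pd 0 v z * w.re + pd 1 v z * w.im := by
  have h : w = w.re • (1 : ℂ) + w.im • Complex.I := by
    apply Complex.ext <;> simp
  conv_lhs => rw [h]
  rw [map_add, map_smul, map_smul]
  simp [pd, dir, mul_comm]

theorem exists_bound {v : ℂ → ℝ} (hv : Continuous v) (hc : HasCompactSupport v) :
    ∃ B, 0 ≤ B ∧ ∀ z, |v z| ≤ B := by
  obtain ⟨B, hB⟩ := hv.bounded_above_of_compact_support hc
  exact ⟨B, (norm_nonneg _).trans (hB 0), hB⟩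

theorem taylor {v : ℂ → ℝ} (hv : ContDiff ℝ 1 v) (hc : HasCompactSupport v) {θ : ℝ} (hθ : 0 < θ) :
    ∃ ε > 0, ∀ x y : ℂ, ‖x - y‖ ≤ ε →
      |v x - v y - (pd 0 v x * (x.re - y.re) + pd 1 v x * (x.im - y.im))| ≤ θ * ‖x - y‖ := by
  obtain ⟨ε, hε, h⟩ := Metric.uniformContinuous_iff_le.1
    ((hc.fderiv ℝ).uniformContinuous_of_continuous (hv.continuous_fderiv one_ne_zero)) θ hθ
  refine ⟨ε, hε, fun x y hxy => ?_⟩
  have h1 := (convex_closedBall x ε).norm_image_sub_le_of_norm_fderiv_le' (𝕜 := ℝ) (f := v)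
    (φ := fderiv ℝ v x) (C := θ) (fun z _ => hv.differentiable one_ne_zero z)
    (fun z hz => by rw [← dist_eq_norm]; exact h hz) (x := y) (y := x)
    (by rw [Metric.mem_closedBall, dist_comm, dist_eq_norm]; exact hxy)
    (Metric.mem_closedBall_self hε.le)
  rwa [fderiv_eq, Complex.sub_re, Complex.sub_im, Real.norm_eq_abs] at h1

theorem exists_lip {v : ℂ → ℝ} (hv : ContDiff ℝ 1 v) (hc : HasCompactSupport v) :
    ∃ L, 0 ≤ L ∧ ∀ x y : ℂ, |v x - v y| ≤ L * ‖x - y‖ := by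
  obtain ⟨L, hL⟩ := (hv.continuous_fderiv one_ne_zero).bounded_above_of_compact_support
    (hc.fderiv ℝ)
  refine ⟨L, (norm_nonneg _).trans (hL 0), fun x y => ?_⟩
  exact convex_univ.norm_image_sub_le_of_norm_fderiv_le (𝕜 := ℝ)
    (fun z _ => hv.differentiable one_ne_zero z) (fun z _ => hL z) (Set.mem_univ y)
    (Set.mem_univ x)

theorem en_le_len2 (G : Net ℂ) (S : Finset ℂ) {v : ℂ → ℝ} {L : ℝ}
    (hv : ∀ x ∈ S, ∀ y ∈ G.N x, |v x - v y| ≤ L * ‖x - y‖) : G.en S v v ≤ L ^ 2 * G.len2 S := by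
  rw [len2_eq, mul_left_comm, en]
  refine mul_le_mul_of_nonneg_left ?_ (by norm_num)
  rw [mul_sum]
  refine sum_le_sum fun x hx => ?_
  rw [mul_sum]
  refine sum_le_sum fun y hy => ?_
  have h := mul_self_le_mul_self (abs_nonneg _) (hv x hx y hy)
  rw [abs_mul_abs_self] at h
  exact h.trans (le_of_eq (by ring))

theorem sqrt_mul_le {x y C D : ℝ} (hx : x ≤ C) (hy : y ≤ D) : √x * √y ≤ √C * √D :=
  mul_le_mul (Real.sqrt_le_sqrt hx) (Real.sqrt_le_sqrt hy) (Real.sqrt_nonneg _)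
    (Real.sqrt_nonneg _)

/-- a criterion for convergence to zero -/
theorem tendsto_zero_of {x : ℕ → ℝ} (K : ℝ) (h : ∀ θ > 0, ∀ᶠ n in atTop, |x n| ≤ θ * K) :
    Tendsto x atTop (𝓝 0) := by
  refine Metric.tendsto_nhds.2 fun ε hε => ?_
  filter_upwards [h (ε / (2 * (|K| + 1))) (by positivity)] with n hn
  rw [Real.dist_eq, sub_zero]
  have h1 : ε / (2 * (|K| + 1)) * K ≤ ε / (2 * (|K| + 1)) * (|K| + 1) :=
    mul_le_mul_of_nonneg_left (by linarith [le_abs_self K]) (by positivity)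
  have h2 : ε / (2 * (|K| + 1)) * (|K| + 1) = ε / 2 := by field_simp
  linarith

/-- the hypotheses on the nets over the set `S` -/
structure Homog (G : ℕ → Net ℂ) (s : ℕ → Finset ℂ) (a : ℕ → ℝ) (S : Set ℂ) (C : ℝ) : Prop where
  len : ∀ᶠ n in atTop, (G n).len2 (pts (s n) S) ≤ C
  short : ∀ ε > 0, ∀ᶠ n in atTop, ∀ x ∈ pts (s n) S, ∀ y ∈ (G n).N x, ‖x - y‖ ≤ ε
  nbr : ∀ᶠ n in atTop, ∀ x ∈ pts (s n) S, (G n).N x ⊆ s n
  corr : ∀ p, ∀ δ > 0, ∀ᶠ n in atTop, ∀ x ∈ (G n).clo (pts (s n) S),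
    |(G n).hx (pts (s n) S) (co p) x - co p x| ≤ δ
  flux : ∀ (p q : Fin 2) (f : ℂ → ℝ), Continuous f → ∀ g : ℕ → ℂ → ℝ,
    (∀ ε > 0, ∀ᶠ n in atTop, ∀ x ∈ pts (s n) S, |g n x - f x| ≤ ε) →
    Tendsto (fun n => (G n).enw (pts (s n) S) (g n) ((G n).hx (pts (s n) S) (co p)) (co q) -
      a n * if p = q then ∫ z in S, f z else 0) atTop (𝓝 0)

/-- the hypotheses on the functions over the set `S` -/
structure Adm (G : ℕ → Net ℂ) (s : ℕ → Finset ℂ) (S : Set ℂ) (u : ℕ → ℂ → ℝ) (U : ℂ → ℝ)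
    (C : ℝ) : Prop where
  cont : Continuous U
  conv : ∀ ε > 0, ∀ᶠ n in atTop, ∀ x ∈ pts (s n) S, |u n x - U x| ≤ ε
  en : ∀ᶠ n in atTop, (G n).en (pts (s n) S) (u n) (u n) ≤ C

variable {G : ℕ → Net ℂ} {s : ℕ → Finset ℂ} {a : ℕ → ℝ} {S : Set ℂ} {C C' : ℝ}
  {u : ℕ → ℂ → ℝ} {U : ℂ → ℝ}

/-- a function supported inside `S` vanishes off the inner vertices -/
theorem Homog.vanish (h : Homog G s a S C) {χ : ℂ → ℝ} (hc : HasCompactSupport χ)
    (hS : tsupport χ ⊆ interior S) :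
    ∀ᶠ n in atTop, ∀ x ∈ (G n).clo (pts (s n) S), x ∉ (G n).inner (pts (s n) S) → χ x = 0 := by
  obtain ⟨δ, hδ, hsub⟩ := hc.isCompact.exists_cthickening_subset_open isOpen_interior hS
  filter_upwards [h.short δ hδ, h.nbr] with n h1 h2 x hx hi
  by_contra hne
  have hxt : x ∈ tsupport χ := subset_tsupport χ hne
  have key : ∀ y, ‖x - y‖ ≤ δ → y ∈ S := fun y hy => interior_subset (hsub
    (Metric.mem_cthickening_of_dist_le y x δ _ hxt (by rw [dist_comm, dist_eq_norm]; exact hy)))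
  have hxs : x ∈ pts (s n) S := by
    refine mem_pts.2 ⟨?_, key x (by simpa using hδ.le)⟩
    rcases (G n).mem_clo.1 hx with k | ⟨z, hz, k⟩
    · exact (mem_pts.1 k).1
    · exact h2 z hz k
  exact hi ((G n).mem_inner.2 ⟨hxs, fun y hy => mem_pts.2 ⟨h2 x hxs hy, key y (h1 x hxs y hy)⟩⟩)

theorem Adm.bound (hu : Adm G s S u U C') (hb : Bornology.IsBounded S) :
    ∃ B, 0 ≤ B ∧ ∀ᶠ n in atTop, ∀ x ∈ pts (s n) S, |u n x| ≤ B := by
  obtain ⟨B, hB⟩ := hb.isCompact_closure.exists_bound_of_continuousOn hu.cont.continuousOn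
  refine ⟨|B| + 1, by positivity, ?_⟩
  filter_upwards [hu.conv 1 one_pos] with n hn x hx
  have h1 : |U x| ≤ B := hB x (subset_closure (mem_pts.1 hx).2)
  have h2 := abs_sub_abs_le_abs_sub (u n x) (U x)
  linarith [hn x hx, le_abs_self B]

/-- Taylor expansion of the second function -/
theorem Homog.taylor_lim (h : Homog G s a S C) {g w : ℕ → ℂ → ℝ} {B E : ℝ} (hB : 0 ≤ B)
    (hg : ∀ᶠ n in atTop, ∀ x ∈ pts (s n) S, |g n x| ≤ B)
    (hw : ∀ᶠ n in atTop, (G n).en (pts (s n) S) (w n) (w n) ≤ E) {v : ℂ → ℝ} (hv : ContDiff ℝ 1 v)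
    (hc : HasCompactSupport v) :
    Tendsto (fun n => (G n).enw (pts (s n) S) (g n) (w n) v -
      ((G n).enw (pts (s n) S) (g n * pd 0 v) (w n) (co 0) +
        (G n).enw (pts (s n) S) (g n * pd 1 v) (w n) (co 1))) atTop (𝓝 0) := by
  refine tendsto_zero_of (B * (√E * √C)) fun θ hθ => ?_
  obtain ⟨ε, hε, ht⟩ := taylor hv hc hθ
  filter_upwards [h.short ε hε, h.len, hg, hw] with n h1 h2 h3 h4
  refine ((G n).enw_taylor _ (g n) (w n) v (pd 0 v) (pd 1 v) hB hθ.le h3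
    fun x hx y hy => ht x y (h1 x hx y hy)).trans ?_
  have := mul_le_mul_of_nonneg_left (sqrt_mul_le h4 h2) (mul_nonneg hB hθ.le)
  linarith

/-- the limit of the flux of `u` -/
theorem Homog.flux_lim (h : Homog G s a S C) (hb : Bornology.IsBounded S) (hu : Adm G s S u U C')
    (p : Fin 2) {χ : ℂ → ℝ} (hχ : ContDiff ℝ 1 χ) (hc : HasCompactSupport χ)
    (hS : tsupport χ ⊆ interior S) {B : ℝ}
    (hB : ∀ᶠ n in atTop, ∑ x ∈ (G n).inner (pts (s n) S), |χ x| * |(G n).lap (u n) x| ≤ B) :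
    Tendsto (fun n => (G n).enw (pts (s n) S) χ (u n) (co p) + a n * ∫ z in S, U z * pd p χ z)
      atTop (𝓝 0) := by
  obtain ⟨L, hL0, hL⟩ := exists_lip hχ hc
  obtain ⟨Bu, hBu0, hBu⟩ := hu.bound hb
  have hw : ∀ᶠ n in atTop, (G n).en (pts (s n) S) ((G n).hx (pts (s n) S) (co p))
      ((G n).hx (pts (s n) S) (co p)) ≤ C := by
    filter_upwards [h.len] with n hn
    exact (((G n).nu_le_en _ _).trans (en_co_le _ _ p)).trans hn
  have h1 : Tendsto (fun n => (G n).enw (pts (s n) S) χ (u n) (co p) +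
      (G n).enw (pts (s n) S) (u n) ((G n).hx (pts (s n) S) (co p)) χ) atTop (𝓝 0) := by
    refine tendsto_zero_of (L * (√C * √C') + B + √C' * √(L ^ 2 * C)) fun θ hθ => ?_
    filter_upwards [h.short θ hθ, h.len, h.corr p θ hθ, h.vanish hc hS, hu.en, hB, hw]
      with n k1 k2 k3 k4 k5 k6 k7
    refine ((G n).tartar _ (u n) _ (co p) χ (η := L * θ) (by positivity) hθ.le
      (fun x hx => (G n).hx_lap _ _ hx) k4 (fun x hx y hy =>
        (hL x y).trans (mul_le_mul_of_nonneg_left (k1 x hx y hy) hL0)) k3).trans ?_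
    have e1 := mul_le_mul_of_nonneg_left (sqrt_mul_le k7 k5) (mul_nonneg hL0 hθ.le)
    have e2 := mul_le_mul_of_nonneg_left k6 hθ.le
    have e3 := mul_le_mul_of_nonneg_left (sqrt_mul_le k5
      ((en_le_len2 (G n) (pts (s n) S) fun x _ y _ => hL x y).trans
        (mul_le_mul_of_nonneg_left k2 (sq_nonneg L)))) hθ.le
    linarith
  have h2 := h.taylor_lim hBu0 hBu hw hχ hc
  have h3 : ∀ q, Tendsto (fun n => (G n).enw (pts (s n) S) (u n * pd q χ)
      ((G n).hx (pts (s n) S) (co p)) (co q) -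
      a n * if p = q then ∫ z in S, U z * pd q χ z else 0) atTop (𝓝 0) := by
    intro q
    refine h.flux p q (fun z => U z * pd q χ z) (hu.cont.mul (pd_continuous q hχ)) _
      fun ε hε => ?_
    obtain ⟨D, hD0, hD⟩ := exists_bound (pd_continuous q hχ) (pd_compact q hc)
    filter_upwards [hu.conv (ε / (D + 1)) (by positivity)] with n hn x hx
    rw [Pi.mul_apply, ← sub_mul, abs_mul]
    refine (mul_le_mul (hn x hx) ((hD x).trans (by linarith : D ≤ D + 1)) (abs_nonneg _)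
      (by positivity)).trans (le_of_eq ?_)
    field_simp
  have h4 := ((h1.sub h2).sub (h3 0)).sub (h3 1)
  simp only [sub_zero] at h4
  refine h4.congr fun n => ?_
  fin_cases p <;> simp <;> ring

end Pool.Agent.Lib.MP_0d9445_pr.Hom
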